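import Mathlib

/-! Definitions for MP_5ef43e_nt: low degree points on smooth surfaces in projective 3-space. -/

namespace Pool.Agent.Lib.MP_5ef43e_nt

open MvPolynomial

universe u

variable (k : Type u) [Field k]

/-- The residue field of the closed point of projective 3-space over `k` below the geometric
point with homogeneous coordinates `v`: the subfield of the algebraic closure generated over `k`
by the ratios of the coordinates. -/
noncomputable def residueField (v : Fin 4 → AlgebraicClosure k) :
    IntermediateField k (AlgebraicClosure k) :=
  IntermediateField.adjoin k {z | ∃ i j : Fin 4, v j ≠ 0 ∧ z = v i / v j}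

/-- The degree of the closed point below the geometric point `v`. -/
noncomputable def pointDegree (v : Fin 4 → AlgebraicClosure k) : ℕ :=
  Module.finrank k (residueField k v)

/-- `v` gives homogeneous coordinates of a geometric point of the surface `F = 0`. -/
def OnSurface (F : MvPolynomial (Fin 4) k) (v : Fin 4 → AlgebraicClosure k) : Prop :=
  v ≠ 0 ∧ aeval v F = 0

/-- `F = 0` is a smooth surface of degree `d` in projective 3-space over `k`
(Jacobian criterion at all geometric points). -/
def IsSmoothSurface (d : ℕ) (F : MvPolynomial (Fin 4) k) : Prop :=
  F.IsHomogeneous d ∧ F ≠ 0 ∧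
    ∀ v : Fin 4 → AlgebraicClosure k, OnSurface k F v → ∃ i, aeval v (pderiv i F) ≠ 0

/-- The density degree set of the surface `F = 0`: all `e ≥ 1` such that the closed points of
degree `e` are Zariski dense, that is, every form over the algebraic closure that vanishes at all
geometric points above closed points of degree `e` vanishes on the whole surface. -/
def densityDegreeSet (F : MvPolynomial (Fin 4) k) : Set ℕ :=
  {e | 1 ≤ e ∧ ∀ G : MvPolynomial (Fin 4) (AlgebraicClosure k), (∃ m, G.IsHomogeneous m) →
    (∀ v, OnSurface k F v → pointDegree k v = e → eval v G = 0) →
      ∀ v, OnSurface k F v → eval v G = 0}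

end Pool.Agent.Lib.MP_5ef43e_nt
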