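import Mathlib
import Pool.Agent.Lib.MP_5ef43e_nt.Defs

/-! Local analysis at a prime: binary forms without zeros. -/

namespace Pool.Agent.Lib.MP_5ef43e_nt

open IsDedekindDomain HeightOneSpectrum

/-- Value of the binary form `y^d f(x/y)`. -/
noncomputable def bev {R : Type*} [CommRing R] (f : Polynomial R) (d : ℕ) {S : Type*} [CommRing S]
    [Algebra R S] (x y : S) : S :=
  ∑ n ∈ Finset.range (d + 1), algebraMap R S (f.coeff n) * x ^ n * y ^ (d - n)

lemma bev_smul {R : Type*} [CommRing R] (f : Polynomial R) (d : ℕ) {S : Type*} [CommRing S]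
    [Algebra R S] (t x y : S) : bev f d (t * x) (t * y) = t ^ d * bev f d x y := by
  unfold bev
  rw [Finset.mul_sum]
  refine Finset.sum_congr rfl fun n hn => ?_
  have hn' : n + (d - n) = d := by
    have := Finset.mem_range.mp hn
    omega
  calc algebraMap R S (f.coeff n) * (t * x) ^ n * (t * y) ^ (d - n)
      = t ^ (n + (d - n)) * (algebraMap R S (f.coeff n) * x ^ n * y ^ (d - n)) := by ring
    _ = _ := by rw [hn']

lemma bev_map {R R' S S' : Type*} [CommRing R] [CommRing R'] [CommRing S] [CommRing S']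
    [Algebra R S] [Algebra R' S'] (φ : R →+* R') (ψ : S →+* S')
    (h : ∀ r, ψ (algebraMap R S r) = algebraMap R' S' (φ r)) (f : Polynomial R) (d : ℕ) (x y : S) :
    ψ (bev f d x y) = bev (f.map φ) d (ψ x) (ψ y) := by
  unfold bev
  rw [map_sum]
  refine Finset.sum_congr rfl fun n _ => ?_
  rw [map_mul, map_mul, map_pow, map_pow, h, Polynomial.coeff_map]

lemma bev_field {κ l : Type*} [Field κ] [Field l] [Algebra κ l] [FiniteDimensional κ l]
    {f : Polynomial κ} {d : ℕ} (hd : f.natDegree = d) (hm : f.Monic) (hi : Irreducible f)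
    {x y : l} (h : bev f d x y = 0) : (x = 0 ∧ y = 0) ∨ d ∣ Module.finrank κ l := by
  have hd0 : 0 < d := hd ▸ hi.natDegree_pos
  by_cases hy : y = 0
  · left
    refine ⟨?_, hy⟩
    subst hy
    unfold bev at h
    rw [Finset.sum_eq_single d] at h
    · have hc : f.coeff d = 1 := by rw [← hd]; exact hm
      simpa [hc, hd0.ne'] using h
    · intro n hn hne
      have : d - n ≠ 0 := by
        have := Finset.mem_range.mp hn
        omega
      simp [this]
    · intro hn
      exact absurd (Finset.mem_range.mpr (Nat.lt_succ_self d)) hn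
  · right
    set θ := x / y with hθ
    have hx : x = y * θ := by rw [hθ]; field_simp
    have h1 : bev f d (y * θ) (y * 1) = 0 := by rw [← hx, mul_one]; exact h
    rw [bev_smul] at h1
    have h2 : bev f d θ 1 = 0 := (mul_eq_zero.mp h1).resolve_left (pow_ne_zero _ hy)
    have h3 : Polynomial.aeval θ f = 0 := by
      rw [Polynomial.aeval_eq_sum_range, hd]
      unfold bev at h2
      simpa [Algebra.smul_def] using h2
    have h4 : minpoly κ θ = f := (minpoly.eq_of_irreducible_of_monic hi h3 hm).symm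
    have h5 := minpoly.degree_dvd (K := κ) (x := θ) (IsIntegral.of_finite κ θ)
    rwa [h4, hd] at h5

section AKLB

lemma bev_mem {A B : Type*} [CommRing A] [CommRing B] [Algebra A B] [Module.Finite A B]
    (p : Ideal A) [p.IsMaximal] (P : Ideal B) [P.IsMaximal] [P.LiesOver p]
    {f : Polynomial A} {d : ℕ} (hm : f.Monic) (hd : f.natDegree = d)
    (hi : Irreducible (f.map (Ideal.Quotient.mk p))) (hf : ¬ d ∣ Ideal.inertiaDeg' p P)
    {x y : B} (h : bev f d x y ∈ P) : x ∈ P ∧ y ∈ P := by
  let : Field (A ⧸ p) := Ideal.Quotient.field p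
  let : Field (B ⧸ P) := Ideal.Quotient.field P
  have h1 : bev (f.map (Ideal.Quotient.mk p)) d (Ideal.Quotient.mk P x)
      (Ideal.Quotient.mk P y) = 0 := by
    rw [← bev_map (Ideal.Quotient.mk p) (Ideal.Quotient.mk P) (fun r => by rfl) f d x y]
    exact Ideal.Quotient.eq_zero_iff_mem.mpr h
  have : FiniteDimensional (A ⧸ p) (B ⧸ P) := inferInstance
  have h2 := bev_field (κ := A ⧸ p) (l := B ⧸ P) (d := d)
    (by rw [hm.natDegree_map, hd]) (hm.map _) hi h1
  rcases h2 with h2 | h2
  · exact ⟨Ideal.Quotient.eq_zero_iff_mem.mp h2.1, Ideal.Quotient.eq_zero_iff_mem.mp h2.2⟩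
  · exact absurd (by rw [Ideal.inertiaDeg'_algebraMap]; exact h2) hf

/-- The binary form of `f` in the variables `i`, `j`. -/
noncomputable def binForm {A : Type*} [CommRing A] (f : Polynomial A) (d : ℕ) (i j : Fin 4) :
    MvPolynomial (Fin 4) A :=
  bev f d (MvPolynomial.X i) (MvPolynomial.X j)

lemma aeval_binForm {A S : Type*} [CommRing A] [CommRing S] [Algebra A S] (f : Polynomial A)
    (d : ℕ) (i j : Fin 4) (z : Fin 4 → S) :
    MvPolynomial.aeval z (binForm f d i j) = bev f d (z i) (z j) := by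
  unfold binForm bev
  rw [map_sum]
  refine Finset.sum_congr rfl fun n _ => ?_
  simp

lemma binForm_isHomogeneous {A : Type*} [CommRing A] (f : Polynomial A) (d : ℕ) (i j : Fin 4) :
    (binForm f d i j).IsHomogeneous d := by
  unfold binForm bev
  refine MvPolynomial.IsHomogeneous.sum _ _ _ fun n hn => ?_
  have hn' : 0 + n + (d - n) = d := by
    have := Finset.mem_range.mp hn
    omega
  have h := ((MvPolynomial.isHomogeneous_C (Fin 4) (f.coeff n)).mul
    ((MvPolynomial.isHomogeneous_X A i).pow n)).mul ((MvPolynomial.isHomogeneous_X A j).pow (d - n))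
  rw [one_mul, one_mul, hn'] at h
  exact h

variable {A : Type*} [CommRing A] [IsDedekindDomain A]
variable {B : Type*} [CommRing B] [IsDedekindDomain B] [Algebra A B] [Module.Finite A B]
  [Module.IsTorsionFree A B]
variable (L : Type*) [Field L] [Algebra B L] [IsFractionRing B L]
variable (v : HeightOneSpectrum A) (w : HeightOneSpectrum B) [w.asIdeal.LiesOver v.asIdeal]

include L in
lemma exists_scale (x y : B) (h : x ≠ 0 ∨ y ≠ 0) :
    ∃ (t : L) (x' y' : B), t ≠ 0 ∧ algebraMap B L x' = t * algebraMap B L x ∧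
      algebraMap B L y' = t * algebraMap B L y ∧ (x' ∉ w.asIdeal ∨ y' ∉ w.asIdeal) := by
  classical
  let g : Fin 2 → L := ![algebraMap B L x, algebraMap B L y]
  have hinj := IsFractionRing.injective B L
  have hg : ∃ j, g j ≠ 0 := by
    rcases h with h | h
    · exact ⟨0, by simpa [g] using fun h' => h (hinj (by simpa using h'))⟩
    · exact ⟨1, by simpa [g] using fun h' => h (hinj (by simpa using h'))⟩
  obtain ⟨j, hj⟩ := hg
  obtain ⟨a, ha, i, -, hi⟩ := Ideal.exist_integer_multiples_notMem (K := L) w.isPrime.ne_top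
    Finset.univ g (Finset.mem_univ j) hj
  obtain ⟨x', hx'⟩ := ha 0 (Finset.mem_univ _)
  obtain ⟨y', hy'⟩ := ha 1 (Finset.mem_univ _)
  have ha0 : a ≠ 0 := by
    rintro rfl
    apply hi
    rw [zero_mul]
    exact Submodule.zero_mem _
  refine ⟨a, x', y', ha0, hx', hy', ?_⟩
  by_contra hcon
  push Not at hcon
  apply hi
  fin_cases i
  · rw [FractionalIdeal.mem_coeIdeal]
    exact ⟨x', hcon.1, hx'⟩
  · rw [FractionalIdeal.mem_coeIdeal]
    exact ⟨y', hcon.2, hy'⟩

lemma intVal_aeval_le {G : MvPolynomial (Fin 4) A} {n : ℕ} (hG : ∀ m, G.coeff m ∈ v.asIdeal ^ n)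
    (z : Fin 4 → B) :
    w.intValuation (MvPolynomial.aeval z G) ≤
      WithZero.exp (-(n : ℤ)) ^ (Ideal.ramificationIdx' v.asIdeal w.asIdeal) := by
  rw [MvPolynomial.aeval_def, MvPolynomial.eval₂_eq']
  refine Valuation.map_sum_le _ fun m _ => ?_
  rw [map_mul]
  have h1 : w.intValuation (algebraMap A B (G.coeff m)) ≤
      WithZero.exp (-(n : ℤ)) ^ (Ideal.ramificationIdx' v.asIdeal w.asIdeal) := by
    rw [← intValuation_liesOver v w]
    exact pow_le_pow_left' ((v.intValuation_le_pow_iff_mem _ n).mpr (hG m)) _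
  calc _ ≤ WithZero.exp (-(n : ℤ)) ^ (Ideal.ramificationIdx' v.asIdeal w.asIdeal) * 1 :=
        mul_le_mul' h1 (w.intValuation_le_one _)
    _ = _ := mul_one _

include L in
lemma main_local {d : ℕ} {f : Polynomial A} (hd : 0 < d) (hm : f.Monic) (hfd : f.natDegree = d)
    (hi : Irreducible (f.map (Ideal.Quotient.mk v.asIdeal)))
    {ϖ : A} (hϖ : v.intValuation ϖ = WithZero.exp (-1 : ℤ))
    {F : MvPolynomial (Fin 4) A}
    (hF : ∀ m, (F - (binForm f d 0 1 + MvPolynomial.C ϖ * binForm f d 2 3)).coeff m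
      ∈ v.asIdeal ^ 2)
    {z : Fin 4 → B} (hz : ∃ i, z i ∉ w.asIdeal) (h0 : MvPolynomial.aeval z F = 0) :
    d ∣ Ideal.ramificationIdx' v.asIdeal w.asIdeal ∨
      d ∣ Ideal.inertiaDeg' v.asIdeal w.asIdeal := by
  by_contra hcon
  push Not at hcon
  obtain ⟨hne, hnf⟩ := hcon
  have : v.asIdeal.IsMaximal := v.isMaximal
  have : w.asIdeal.IsMaximal := w.isMaximal
  set e := Ideal.ramificationIdx' v.asIdeal w.asIdeal with he
  have he0 : e ≠ 0 := Ideal.IsDedekindDomain.ramificationIdx'_ne_zero_of_liesOver w.asIdeal v.ne_bot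
  set r : B := MvPolynomial.aeval z (F - (binForm f d 0 1 + MvPolynomial.C ϖ * binForm f d 2 3))
    with hr
  have hr1 : w.intValuation r ≤ WithZero.exp (-((2 : ℕ) : ℤ)) ^ e := intVal_aeval_le v w hF z
  have hexp : (WithZero.exp (-((2 : ℕ) : ℤ)) : WithZero (Multiplicative ℤ)) ^ e <
      WithZero.exp (-1 : ℤ) ^ e := by
    rw [← WithZero.exp_nsmul, ← WithZero.exp_nsmul, WithZero.exp_lt_exp]
    simp only [nsmul_eq_mul]
    have : (0 : ℤ) < e := by positivity
    push_cast
    nlinarith
  have hsum : bev f d (z 0) (z 1) + (algebraMap A B ϖ * bev f d (z 2) (z 3) + r) = 0 := by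
    rw [hr]
    simp only [map_sub, map_add, map_mul, MvPolynomial.aeval_C, aeval_binForm, h0]
    ring
  have hϖB : w.intValuation (algebraMap A B ϖ) = WithZero.exp (-1 : ℤ) ^ e := by
    rw [← intValuation_liesOver v w, hϖ]
  have hϖmem : algebraMap A B ϖ ∈ w.asIdeal := by
    rw [← intValuation_lt_one_iff_mem, hϖB, ← WithZero.exp_nsmul, ← WithZero.exp_zero,
      WithZero.exp_lt_exp]
    have : (0 : ℤ) < e := by positivity
    simp only [nsmul_eq_mul]
    linarith
  have hrmem : r ∈ w.asIdeal := by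
    rw [← intValuation_lt_one_iff_mem]
    refine lt_of_le_of_lt hr1 (lt_of_lt_of_le hexp ?_)
    rw [← hϖB]
    exact w.intValuation_le_one _
  by_cases hc : z 0 ∈ w.asIdeal ∧ z 1 ∈ w.asIdeal
  · -- the point reduces into the line x0 = x1 = 0
    have h23 : ¬ (z 2 ∈ w.asIdeal ∧ z 3 ∈ w.asIdeal) := by
      rintro ⟨h2, h3⟩
      obtain ⟨i, hi'⟩ := hz
      apply hi'
      fin_cases i
      · exact hc.1
      · exact hc.2
      · exact h2
      · exact h3
    have hE23 : bev f d (z 2) (z 3) ∉ w.asIdeal := fun h =>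
      h23 (bev_mem v.asIdeal w.asIdeal hm hfd hi hnf h)
    have hE23' : w.intValuation (bev f d (z 2) (z 3)) = 1 := by
      refine le_antisymm (w.intValuation_le_one _) ?_
      by_contra hlt
      exact hE23 ((intValuation_lt_one_iff_mem w _).mp (not_le.mp hlt))
    have hval : w.intValuation (algebraMap A B ϖ * bev f d (z 2) (z 3)) =
        WithZero.exp (-1 : ℤ) ^ e := by
      rw [map_mul, hE23', mul_one, hϖB]
    have hE01 : w.intValuation (bev f d (z 0) (z 1)) = WithZero.exp (-1 : ℤ) ^ e := by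
      have h1 : bev f d (z 0) (z 1) = -(algebraMap A B ϖ * bev f d (z 2) (z 3) + r) :=
        eq_neg_of_add_eq_zero_left hsum
      rw [h1, Valuation.map_neg, Valuation.map_add_eq_of_lt_left, hval]
      rw [hval]
      exact lt_of_le_of_lt hr1 hexp
    have hxy : z 0 ≠ 0 ∨ z 1 ≠ 0 := by
      by_contra hcon
      push Not at hcon
      rw [hcon.1, hcon.2] at hE01
      have h2 : bev f d (0 : B) 0 = 0 := by
        have := bev_smul f d (0 : B) (0 : B) 0
        rw [zero_mul, zero_pow hd.ne', zero_mul] at this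
        exact this
      rw [h2, map_zero] at hE01
      exact (pow_ne_zero e (WithZero.exp_ne_zero)) hE01.symm
    obtain ⟨t, x', y', ht, hx', hy', hnot⟩ := exists_scale L w (z 0) (z 1) hxy
    have h3 : bev f d x' y' ∉ w.asIdeal := fun h => by
      have := bev_mem v.asIdeal w.asIdeal hm hfd hi hnf h
      tauto
    have h4 : w.valuation L (algebraMap B L (bev f d x' y')) = 1 := by
      rw [valuation_of_algebraMap]
      refine le_antisymm (w.intValuation_le_one _) ?_
      by_contra hlt
      exact h3 ((intValuation_lt_one_iff_mem w _).mp (not_le.mp hlt))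
    have h5 : algebraMap B L (bev f d x' y') = t ^ d * algebraMap B L (bev f d (z 0) (z 1)) := by
      rw [bev_map (algebraMap A B) (algebraMap B L) (fun r => rfl) f d x' y',
        bev_map (algebraMap A B) (algebraMap B L) (fun r => rfl) f d (z 0) (z 1), hx', hy',
        bev_smul]
    rw [h5, map_mul, map_pow, valuation_of_algebraMap, hE01] at h4
    obtain ⟨n, hn⟩ : ∃ n : ℤ, w.valuation L t = WithZero.exp n := by
      have hvt : w.valuation L t ≠ 0 := (Valuation.ne_zero_iff _).mpr ht
      exact ⟨WithZero.log (w.valuation L t), (WithZero.exp_log hvt).symm⟩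
    rw [hn, ← WithZero.exp_nsmul, ← WithZero.exp_nsmul, ← WithZero.exp_add, ← WithZero.exp_zero,
      WithZero.exp_inj] at h4
    simp only [nsmul_eq_mul] at h4
    apply hne
    have h6 : (e : ℤ) = d * n := by linarith
    exact Int.natCast_dvd_natCast.mp ⟨n, h6⟩
  · -- the reduction is off that line
    apply hc
    apply bev_mem v.asIdeal w.asIdeal hm hfd hi hnf
    have h1 : bev f d (z 0) (z 1) = -(algebraMap A B ϖ * bev f d (z 2) (z 3) + r) :=
      eq_neg_of_add_eq_zero_left hsum
    rw [h1]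
    exact w.asIdeal.neg_mem (w.asIdeal.add_mem (w.asIdeal.mul_mem_right _ hϖmem) hrmem)

end AKLB

end Pool.Agent.Lib.MP_5ef43e_nt
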