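import Mathlib
import Pool.Agent.Lib.MP_5ef43e_nt.Local

/-! From local to global: degrees of closed points. -/

namespace Pool.Agent.Lib.MP_5ef43e_nt

open IsDedekindDomain HeightOneSpectrum NumberField

lemma aeval_smul_hom {R S : Type*} [CommRing R] [CommRing S] [Algebra R S] {d : ℕ}
    {F : MvPolynomial (Fin 4) R} (hF : F.IsHomogeneous d) (t : S) (x : Fin 4 → S) :
    MvPolynomial.aeval (fun i => t * x i) F = t ^ d * MvPolynomial.aeval x F := by
  rw [MvPolynomial.aeval_def, MvPolynomial.aeval_def, MvPolynomial.eval₂_eq',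
    MvPolynomial.eval₂_eq', Finset.mul_sum]
  refine Finset.sum_congr rfl fun m hm => ?_
  have h1 : ∑ i, m i = d := by
    have := hF (MvPolynomial.mem_support_iff.mp hm)
    rw [← this, Finsupp.weight_apply, Finsupp.sum_fintype _ _ (fun i => by simp)]
    simp
  simp only [mul_pow]
  rw [Finset.prod_mul_distrib, Finset.prod_pow_eq_pow_sum, h1]
  ring

section

universe u

variable {k : Type u} [Field k]

lemma ratio_mem (x : Fin 4 → AlgebraicClosure k) (i j : Fin 4) (hj : x j ≠ 0) :
    x i / x j ∈ residueField k x :=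
  IntermediateField.subset_adjoin _ _ ⟨i, j, hj, rfl⟩

instance residueField_finite (x : Fin 4 → AlgebraicClosure k) :
    FiniteDimensional k (residueField k x) := by
  unfold residueField
  have hfin : Set.Finite {z | ∃ i j : Fin 4, x j ≠ 0 ∧ z = x i / x j} := by
    refine (Set.finite_range (fun q : Fin 4 × Fin 4 => x q.1 / x q.2)).subset ?_
    rintro z ⟨i, j, -, rfl⟩
    exact ⟨(i, j), rfl⟩
  have := hfin.to_subtype
  exact IntermediateField.finiteDimensional_adjoin fun z _ => Algebra.IsIntegral.isIntegral z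

variable [NumberField k]

instance residueField_numberField (x : Fin 4 → AlgebraicClosure k) :
    NumberField (residueField k x) :=
  NumberField.of_module_finite k (residueField k x)

/-- Scaling the coordinates of a geometric point to be integral in the residue field and
primitive at a given prime. -/
lemma exists_primitive {x : Fin 4 → AlgebraicClosure k} (hx : x ≠ 0)
    (P : Ideal (𝓞 (residueField k x))) (hP : P ≠ ⊤) :
    ∃ (c : AlgebraicClosure k) (z : Fin 4 → 𝓞 (residueField k x)), c ≠ 0 ∧
      (∀ i, ((z i : residueField k x) : AlgebraicClosure k) = c * x i) ∧ ∃ i, z i ∉ P := by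
  obtain ⟨j, hj⟩ := Function.ne_iff.mp hx
  have hj' : x j ≠ 0 := hj
  let g : Fin 4 → residueField k x := fun i => ⟨x i / x j, ratio_mem x i j hj'⟩
  have hgj : g j ≠ 0 := by
    intro h
    have := congrArg (fun y : residueField k x => (y : AlgebraicClosure k)) h
    simp [g, hj'] at this
  obtain ⟨a, ha, i, -, hi⟩ := Ideal.exist_integer_multiples_notMem (K := residueField k x) hP
    Finset.univ g (Finset.mem_univ j) hgj
  choose z hz using fun i => ha i (Finset.mem_univ i)
  have ha0 : a ≠ 0 := by
    rintro rfl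
    apply hi
    rw [zero_mul]
    exact Submodule.zero_mem _
  refine ⟨(a : AlgebraicClosure k) / x j, z, ?_, ?_, i, ?_⟩
  · refine div_ne_zero ?_ hj'
    simpa using ha0
  · intro i
    have h1 : ((z i : residueField k x) : AlgebraicClosure k) = ((a * g i : residueField k x) :
        AlgebraicClosure k) := by
      rw [← hz i]
    rw [h1]
    simp [g]
    ring
  · intro hmem
    apply hi
    rw [FractionalIdeal.mem_coeIdeal]
    exact ⟨z i, hmem, hz i⟩

lemma aeval_z_eq {x : Fin 4 → AlgebraicClosure k} {c : AlgebraicClosure k}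
    {z : Fin 4 → 𝓞 (residueField k x)}
    (hz : ∀ i, ((z i : residueField k x) : AlgebraicClosure k) = c * x i) {n : ℕ}
    {G : MvPolynomial (Fin 4) (𝓞 k)} (hG : G.IsHomogeneous n)
    (h0 : MvPolynomial.aeval x (MvPolynomial.map (algebraMap (𝓞 k) k) G) = 0) :
    MvPolynomial.aeval z G = 0 := by
  have hinj : Function.Injective (algebraMap (𝓞 (residueField k x)) (AlgebraicClosure k)) :=
    FaithfulSMul.algebraMap_injective _ _
  apply hinj
  rw [map_zero]
  have h1 : algebraMap (𝓞 (residueField k x)) (AlgebraicClosure k) (MvPolynomial.aeval z G) =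
      MvPolynomial.aeval (fun i => c * x i) (MvPolynomial.map (algebraMap (𝓞 k) k) G) := by
    rw [MvPolynomial.map_aeval, MvPolynomial.aeval_def, MvPolynomial.eval₂_map,
      MvPolynomial.coe_eval₂Hom]
    congr 1
    funext i
    exact hz i
  rw [h1, aeval_smul_hom (hG.map _), h0, mul_zero]

theorem dvd_pointDegree (v : HeightOneSpectrum (𝓞 k)) {d : ℕ} {f : Polynomial (𝓞 k)} (hd : 0 < d)
    (hm : f.Monic) (hfd : f.natDegree = d)
    (hi : Irreducible (f.map (Ideal.Quotient.mk v.asIdeal)))
    {ϖ : 𝓞 k} (hϖ : v.intValuation ϖ = WithZero.exp (-1 : ℤ))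
    {F : MvPolynomial (Fin 4) (𝓞 k)} (hom : F.IsHomogeneous d)
    (hF : ∀ m, (F - (binForm f d 0 1 + MvPolynomial.C ϖ * binForm f d 2 3)).coeff m
      ∈ v.asIdeal ^ 2)
    {x : Fin 4 → AlgebraicClosure k}
    (hx : OnSurface k (MvPolynomial.map (algebraMap (𝓞 k) k) F) x) : d ∣ pointDegree k x := by
  have : v.asIdeal.IsMaximal := v.isMaximal
  unfold pointDegree
  rw [← Ideal.sum_ramification_inertia (𝓞 (residueField k x)) k (residueField k x)
    (p := v.asIdeal) v.ne_bot]
  refine Finset.dvd_sum fun P hP => ?_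
  obtain ⟨hP1, hP2⟩ := (IsDedekindDomain.mem_primesOverFinset_iff v.ne_bot _).mp hP
  have hPbot : P ≠ ⊥ := Ideal.ne_bot_of_liesOver_of_ne_bot v.ne_bot P
  let w : HeightOneSpectrum (𝓞 (residueField k x)) := ⟨P, hP1, hPbot⟩
  have : w.asIdeal.LiesOver v.asIdeal := hP2
  obtain ⟨c, z, hc, hz, i, hzi⟩ := exists_primitive hx.1 P hP1.ne_top
  have h0 : MvPolynomial.aeval z F = 0 := aeval_z_eq hz hom hx.2
  rcases main_local (residueField k x) v w hd hm hfd hi hϖ hF ⟨i, hzi⟩ h0 with h | h
  · exact Dvd.dvd.mul_right h _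
  · exact Dvd.dvd.mul_left h _

end

end Pool.Agent.Lib.MP_5ef43e_nt
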