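import Mathlib
import Pool.Agent.Lib.MP_5ef43e_nt.Global

/-! Zariski density of the closed points cut out by lines. -/

namespace Pool.Agent.Lib.MP_5ef43e_nt

open MvPolynomial

section general

variable {K E : Type*} [Field K] [Field E] [Algebra K E] [Infinite K]

lemma finSucc_natDegree_le {d : ℕ} {F : MvPolynomial (Fin 4) E} (hF : F.IsHomogeneous d) :
    (finSuccEquiv E 3 F).natDegree ≤ d := by
  rw [natDegree_finSuccEquiv]
  exact (degreeOf_le_totalDegree F 0).trans hF.totalDegree_le

lemma finSucc_coeff_d {d : ℕ} {F : MvPolynomial (Fin 4) E} (hF : F.IsHomogeneous d) :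
    (finSuccEquiv E 3 F).coeff d = C (eval (Fin.cons 1 0 : Fin 4 → E) F) := by
  set F' := finSuccEquiv E 3 F with hF'
  have hdeg : F'.natDegree ≤ d := finSucc_natDegree_le hF
  have h0 : (F'.coeff d).IsHomogeneous 0 := hF.finSuccEquiv_coeff_isHomogeneous d 0 (by simp)
  have h1 : F'.coeff d = C (coeff 0 (F'.coeff d)) := by
    rw [← totalDegree_eq_zero_iff_eq_C]
    exact Nat.le_zero.mp h0.totalDegree_le
  rw [h1]
  congr 1
  rw [eval_eq_eval_mv_eval', ← hF', Polynomial.eval_eq_sum_range' (n := d + 1)]
  · rw [Finset.sum_eq_single d]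
    · rw [Polynomial.coeff_map, h1]
      simp
    · intro j hj hjd
      have hj' : j < d := by
        have := Finset.mem_range.mp hj
        omega
      have h2 : (F'.coeff j).IsHomogeneous (d - j) :=
        hF.finSuccEquiv_coeff_isHomogeneous j (d - j) (by omega)
      rw [Polynomial.coeff_map, one_pow, mul_one]
      rw [MvPolynomial.eval_zero, constantCoeff_eq]
      refine h2.coeff_eq_zero ?_
      rw [map_zero]
      omega
    · intro hn
      exact absurd (Finset.mem_range.mpr (Nat.lt_succ_self d)) hn
  · exact lt_of_le_of_lt (Polynomial.natDegree_map_le) (Nat.lt_succ_of_le hdeg)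

/-- Divisibility of forms from divisibility on the lines through a rational point. -/
lemma dvd_of_lines {d : ℕ} {F G : MvPolynomial (Fin 4) E} (hF : F.IsHomogeneous d)
    (hc : eval (Fin.cons 1 0 : Fin 4 → E) F ≠ 0)
    (h : ∀ w : Fin 3 → K, (∀ i, w i ≠ 0) →
      (finSuccEquiv E 3 F).map (eval fun i => algebraMap K E (w i)) ∣
        (finSuccEquiv E 3 G).map (eval fun i => algebraMap K E (w i))) : F ∣ G := by
  classical
  set c := eval (Fin.cons 1 0 : Fin 4 → E) F with hcdef
  set F' := finSuccEquiv E 3 F with hF'
  set G' := finSuccEquiv E 3 G with hG'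
  have hdeg : F'.natDegree ≤ d := finSucc_natDegree_le hF
  have hlead : F'.coeff d = C c := finSucc_coeff_d hF
  -- make monic
  set M := Polynomial.C (C c⁻¹) * F' with hM
  have hMlead : M.coeff d = 1 := by
    rw [hM, Polynomial.coeff_C_mul, hlead, ← C_mul, inv_mul_cancel₀ hc, C_1]
  have hMdeg : M.natDegree ≤ d := by
    refine (Polynomial.natDegree_C_mul_le _ _).trans hdeg
  have hMmonic : M.Monic := Polynomial.monic_of_natDegree_le_of_coeff_eq_one d hMdeg hMlead
  have hF'M : F' = Polynomial.C (C c) * M := by
    rw [hM, ← mul_assoc, ← Polynomial.C_mul, ← C_mul, mul_inv_cancel₀ hc, C_1, Polynomial.C_1,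
      one_mul]
  -- remainder vanishes
  have hrem : G' %ₘ M = 0 := by
    ext1 n
    rw [Polynomial.coeff_zero]
    refine funext_set (fun _ => (algebraMap K E) '' {a | a ≠ 0}) (fun _ => ?_) ?_
    · refine Set.Infinite.image (algebraMap K E).injective.injOn ?_
      exact (Set.finite_singleton (0 : K)).infinite_compl
    · intro y hy
      choose w hw hwy using fun i => hy i (Set.mem_univ i)
      have hy' : y = fun i => algebraMap K E (w i) := by
        funext i
        exact (hwy i).symm
      have h1 := h w hw
      rw [← hy'] at h1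
      have h2 : (G' %ₘ M).map (eval y) = 0 := by
        rw [Polynomial.map_modByMonic _ hMmonic, Polynomial.modByMonic_eq_zero_iff_dvd
          (hMmonic.map _)]
        refine dvd_trans ?_ h1
        rw [hM, Polynomial.map_mul]
        rw [Polynomial.map_C, eval_C]
        refine ⟨Polynomial.C c, ?_⟩
        rw [mul_comm (Polynomial.C c⁻¹), mul_assoc, ← Polynomial.C_mul, inv_mul_cancel₀ hc,
          Polynomial.C_1, mul_one]
      have h3 := congrArg (fun q : Polynomial E => q.coeff n) h2
      simpa [Polynomial.coeff_map] using h3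
  have hdvd : F' ∣ G' := by
    rw [Polynomial.modByMonic_eq_zero_iff_dvd hMmonic] at hrem
    refine dvd_trans ⟨Polynomial.C (C c⁻¹), ?_⟩ hrem
    rw [hM]
    ring
  rwa [hF', hG', map_dvd_iff] at hdvd

end general

section surf

universe u

variable {k : Type u} [Field k]

lemma pointDegree_rational (a : Fin 4 → k) :
    pointDegree k (fun i => algebraMap k (AlgebraicClosure k) (a i)) = 1 := by
  unfold pointDegree residueField
  rw [IntermediateField.finrank_eq_one_iff, IntermediateField.adjoin_eq_bot_iff]
  rintro z ⟨i, j, -, rfl⟩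
  exact div_mem (IntermediateField.algebraMap_mem _ _) (IntermediateField.algebraMap_mem _ _)

lemma aeval_line (F : MvPolynomial (Fin 4) k) (w : Fin 3 → k) (s : AlgebraicClosure k) :
    Polynomial.aeval s ((finSuccEquiv k 3 F).map (eval w)) =
      aeval (Fin.cons s (fun i => algebraMap k (AlgebraicClosure k) (w i)) :
        Fin 4 → AlgebraicClosure k) F := by
  induction F using MvPolynomial.induction_on with
  | C a => simp [finSuccEquiv_apply]
  | add p q hp hq => simp only [map_add, Polynomial.map_add, hp, hq]
  | mul_X p i hp =>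
    rw [map_mul, Polynomial.map_mul, map_mul, hp, map_mul, aeval_X]
    congr 1
    refine Fin.cases ?_ (fun j => ?_) i
    · rw [finSuccEquiv_X_zero, Polynomial.map_X, Polynomial.aeval_X, Fin.cons_zero]
    · rw [finSuccEquiv_X_succ, Polynomial.map_C, eval_X, Polynomial.aeval_C, Fin.cons_succ]

lemma pointDegree_line_le (w : Fin 3 → k) (s : AlgebraicClosure k) :
    pointDegree k (Fin.cons s (fun i => algebraMap k (AlgebraicClosure k) (w i)) :
        Fin 4 → AlgebraicClosure k) ≤ (minpoly k s).natDegree := by
  have hs : IsIntegral k s := Algebra.IsIntegral.isIntegral s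
  have hle : residueField k (Fin.cons s (fun i => algebraMap k (AlgebraicClosure k) (w i)) :
        Fin 4 → AlgebraicClosure k) ≤ IntermediateField.adjoin k {s} := by
    unfold residueField
    rw [IntermediateField.adjoin_le_iff]
    have hmem : ∀ i : Fin 4, (Fin.cons s (fun i => algebraMap k (AlgebraicClosure k) (w i)) :
        Fin 4 → AlgebraicClosure k) i ∈ IntermediateField.adjoin k {s} := by
      intro i
      refine Fin.cases ?_ (fun j => ?_) i
      · rw [Fin.cons_zero]
        exact IntermediateField.mem_adjoin_simple_self k s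
      · rw [Fin.cons_succ]
        exact IntermediateField.algebraMap_mem _ _
    rintro z ⟨i, j, -, rfl⟩
    exact div_mem (hmem i) (hmem j)
  unfold pointDegree
  rw [← IntermediateField.adjoin.finrank hs]
  have : FiniteDimensional k (IntermediateField.adjoin k {s}) :=
    IntermediateField.adjoin.finiteDimensional hs
  exact Submodule.finrank_mono (R := k) (s := (residueField k _).toSubmodule)
    (t := (IntermediateField.adjoin k {s}).toSubmodule) hle

lemma eval_ne_zero_of_dvd {d : ℕ} (hd : 2 ≤ d) {F : MvPolynomial (Fin 4) k}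
    (hdvd : ∀ x, OnSurface k F x → d ∣ pointDegree k x) :
    ∀ a : Fin 4 → k, a ≠ 0 → eval a F ≠ 0 := by
  intro a ha h
  have h1 : OnSurface k F (fun i => algebraMap k (AlgebraicClosure k) (a i)) := by
    refine ⟨?_, ?_⟩
    · intro h0
      apply ha
      funext i
      have := congrFun h0 i
      simpa using this
    · have h2 := aeval_algebraMap_apply (AlgebraicClosure k) a F
      have h3 : aeval a F = eval a F := rfl
      rw [h3, h, map_zero] at h2
      exact h2
  have h2 := hdvd _ h1
  rw [pointDegree_rational] at h2
  have := Nat.le_of_dvd one_pos h2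
  omega

lemma exists_point {d : ℕ} (hd : 2 ≤ d) {F : MvPolynomial (Fin 4) k}
    (hom : F.IsHomogeneous d) (hdvd : ∀ x, OnSurface k F x → d ∣ pointDegree k x) :
    ∃ x, OnSurface k F x := by
  have hc : eval (Fin.cons 1 0 : Fin 4 → k) F ≠ 0 := eval_ne_zero_of_dvd hd hdvd _ (by
    intro h
    have := congrFun h 0
    simp at this)
  set w : Fin 3 → k := fun _ => 1 with hw
  set R := (finSuccEquiv k 3 F).map (eval w) with hR
  have hRd : R.coeff d = eval (Fin.cons 1 0 : Fin 4 → k) F := by
    rw [hR, Polynomial.coeff_map, finSucc_coeff_d hom, eval_C]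
  have hRdeg : R.natDegree = d := by
    refine le_antisymm (Polynomial.natDegree_map_le.trans (finSucc_natDegree_le hom)) ?_
    refine Polynomial.le_natDegree_of_ne_zero ?_
    rw [hRd]
    exact hc
  obtain ⟨s, hs⟩ := IsAlgClosed.exists_aeval_eq_zero (AlgebraicClosure k) R (fun h => by
    have := Polynomial.natDegree_eq_of_degree_eq_some h
    rw [hRdeg] at this
    norm_num at this
    omega)
  refine ⟨Fin.cons s (fun i => algebraMap k (AlgebraicClosure k) (w i)), ?_, ?_⟩
  · intro h0
    have := congrFun h0 (Fin.succ 0)
    rw [Fin.cons_succ] at this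
    simp [hw] at this
  · rw [← aeval_line]
    exact hs

theorem mem_densityDegreeSet [CharZero k] {d : ℕ} (hd : 2 ≤ d) {F : MvPolynomial (Fin 4) k}
    (hom : F.IsHomogeneous d) (hdvd : ∀ x, OnSurface k F x → d ∣ pointDegree k x) :
    d ∈ densityDegreeSet k F := by
  classical
  refine ⟨by omega, ?_⟩
  rintro G - hG x hx
  have hrat := eval_ne_zero_of_dvd hd hdvd
  have hc : eval (Fin.cons 1 0 : Fin 4 → k) F ≠ 0 := hrat _ (by
    intro h
    have := congrFun h 0
    simp at this)
  have key : map (algebraMap k (AlgebraicClosure k)) F ∣ G := by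
    refine dvd_of_lines (K := k) (hom.map _) ?_ ?_
    · have h1 : (Fin.cons 1 0 : Fin 4 → AlgebraicClosure k) =
          fun i => algebraMap k (AlgebraicClosure k) ((Fin.cons 1 0 : Fin 4 → k) i) := by
        funext i
        refine Fin.cases ?_ (fun j => ?_) i
        · simp
        · simp
      rw [h1, eval_map, ← coe_eval₂Hom]
      have h2 := eval₂_comp_left (algebraMap k (AlgebraicClosure k)) (RingHom.id k)
        (Fin.cons 1 0 : Fin 4 → k) F
      have h3 : eval₂ (RingHom.id k) (Fin.cons 1 0 : Fin 4 → k) F =
        eval (Fin.cons 1 0 : Fin 4 → k) F := rfl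
      rw [h3, RingHom.comp_id] at h2
      rw [coe_eval₂Hom]
      change eval₂ (algebraMap k (AlgebraicClosure k))
        (⇑(algebraMap k (AlgebraicClosure k)) ∘ (Fin.cons 1 0 : Fin 4 → k)) F ≠ 0
      rw [← h2]
      simpa using hc
    · intro w hw
      set R := (finSuccEquiv k 3 F).map (eval w) with hR
      have hRd : R.coeff d = eval (Fin.cons 1 0 : Fin 4 → k) F := by
        rw [hR, Polynomial.coeff_map, finSucc_coeff_d hom, eval_C]
      have hRdeg : R.natDegree = d := by
        refine le_antisymm (Polynomial.natDegree_map_le.trans (finSucc_natDegree_le hom)) ?_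
        refine Polynomial.le_natDegree_of_ne_zero ?_
        rw [hRd]
        exact hc
      have hR0 : R ≠ 0 := by
        rintro h
        rw [h, Polynomial.natDegree_zero] at hRdeg
        omega
      -- every root gives a point of degree `d`
      have hroot : ∀ s : AlgebraicClosure k, Polynomial.aeval s R = 0 →
          (minpoly k s).natDegree = d ∧ OnSurface k F (Fin.cons s
            (fun i => algebraMap k (AlgebraicClosure k) (w i)) : Fin 4 → AlgebraicClosure k) ∧
          pointDegree k (Fin.cons s (fun i => algebraMap k (AlgebraicClosure k) (w i)) :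
            Fin 4 → AlgebraicClosure k) = d := by
        intro s hs
        have h1 : OnSurface k F (Fin.cons s
            (fun i => algebraMap k (AlgebraicClosure k) (w i)) : Fin 4 → AlgebraicClosure k) := by
          refine ⟨?_, ?_⟩
          · intro h0
            have := congrFun h0 (Fin.succ 0)
            rw [Fin.cons_succ] at this
            exact hw 0 (by simpa using this)
          · rw [← aeval_line]
            exact hs
        have h2 : (minpoly k s).natDegree ≤ d := by
          rw [← hRdeg]
          exact Polynomial.natDegree_le_of_dvd (minpoly.dvd k s hs) hR0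
        have h3 := pointDegree_line_le w s
        have h4 : 0 < pointDegree k (Fin.cons s
            (fun i => algebraMap k (AlgebraicClosure k) (w i)) : Fin 4 → AlgebraicClosure k) := by
          unfold pointDegree
          exact Module.finrank_pos
        have h5 := Nat.le_of_dvd h4 (hdvd _ h1)
        exact ⟨by omega, h1, by omega⟩
      obtain ⟨s, hs⟩ := IsAlgClosed.exists_aeval_eq_zero (AlgebraicClosure k) R (fun h => by
        have := Polynomial.natDegree_eq_of_degree_eq_some h
        rw [hRdeg] at this
        norm_num at this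
        omega)
      have hsi : IsIntegral k s := Algebra.IsIntegral.isIntegral s
      have hmdeg := (hroot s hs).1
      obtain ⟨q, hq⟩ := minpoly.dvd k s hs
      have hq0 : q ≠ 0 := by
        rintro rfl
        exact hR0 (by rw [hq, mul_zero])
      have hqdeg : q.natDegree = 0 := by
        have h1 := Polynomial.natDegree_mul (minpoly.ne_zero hsi) hq0
        rw [← hq, hRdeg, hmdeg] at h1
        omega
      obtain ⟨a, ha⟩ := Polynomial.natDegree_eq_zero.mp hqdeg
      have ha0 : a ≠ 0 := by
        rintro rfl
        exact hq0 (by rw [← ha, Polynomial.C_0])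
      have hRbar : (finSuccEquiv (AlgebraicClosure k) 3
          (map (algebraMap k (AlgebraicClosure k)) F)).map
            (eval fun i => algebraMap k (AlgebraicClosure k) (w i)) =
          R.map (algebraMap k (AlgebraicClosure k)) := by
        refine Polynomial.funext fun r => ?_
        rw [← eval_eq_eval_mv_eval', Polynomial.eval_map_algebraMap, hR, aeval_line, eval_map]
        rfl
      set g := (finSuccEquiv (AlgebraicClosure k) 3 G).map
            (eval fun i => algebraMap k (AlgebraicClosure k) (w i)) with hg
      rw [hRbar, hq, ← ha, Polynomial.map_mul, Polynomial.map_C]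
      have hunit : IsUnit (Polynomial.C (algebraMap k (AlgebraicClosure k) a)) := by
        rw [Polynomial.isUnit_C, isUnit_iff_ne_zero]
        simpa using ha0
      rw [hunit.mul_right_dvd]
      by_cases hg0 : g = 0
      · rw [hg0]
        exact dvd_zero _
      have hsep : (minpoly k s).Separable := (minpoly.irreducible hsi).separable
      have hm0 : (minpoly k s).map (algebraMap k (AlgebraicClosure k)) ≠ 0 :=
        Polynomial.map_ne_zero (minpoly.ne_zero hsi)
      rw [Polynomial.Splits.dvd_iff_roots_le_roots (IsAlgClosed.splits _) hm0 hg0,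
        Multiset.le_iff_subset (Polynomial.nodup_roots hsep.map)]
      intro r hr
      rw [Polynomial.mem_roots hm0, Polynomial.IsRoot.def, Polynomial.eval_map_algebraMap] at hr
      have hr' : Polynomial.aeval r R = 0 := by
        rw [hq, map_mul, hr, zero_mul]
      obtain ⟨-, h2, h3⟩ := hroot r hr'
      have h4 := hG _ h2 h3
      rw [Polynomial.mem_roots hg0, Polynomial.IsRoot.def, hg, ← eval_eq_eval_mv_eval']
      exact h4
  obtain ⟨Q, rfl⟩ := key
  have h1 : eval x (map (algebraMap k (AlgebraicClosure k)) F) = 0 := by
    rw [eval_map]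
    exact hx.2
  rw [map_mul, h1, zero_mul]

theorem isLeast_densityDegreeSet [CharZero k] {d : ℕ} (hd : 2 ≤ d) {F : MvPolynomial (Fin 4) k}
    (hom : F.IsHomogeneous d) (hdvd : ∀ x, OnSurface k F x → d ∣ pointDegree k x) :
    IsLeast (densityDegreeSet k F) d := by
  refine ⟨mem_densityDegreeSet hd hom hdvd, ?_⟩
  rintro e ⟨he1, he⟩
  by_contra hlt
  push Not at hlt
  obtain ⟨x, hx⟩ := exists_point hd hom hdvd
  have h1 := he 1 ⟨0, isHomogeneous_one _ _⟩ (fun v hv hv' => by
    have h2 := Nat.le_of_dvd (by omega) (hv' ▸ hdvd v hv)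
    omega) x hx
  rw [map_one] at h1
  exact one_ne_zero h1

end surf

end Pool.Agent.Lib.MP_5ef43e_nt
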