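import Mathlib
import Pool.Agent.Lib.MP_5ef43e_nt.Global

/-! Smoothness from good reduction to the Fermat surface at an auxiliary prime. -/

namespace Pool.Agent.Lib.MP_5ef43e_nt

open IsDedekindDomain HeightOneSpectrum NumberField

/-- The Fermat form of degree `d`. -/
noncomputable def fermat (R : Type*) [CommRing R] (d : ℕ) : MvPolynomial (Fin 4) R :=
  ∑ i, MvPolynomial.X i ^ d

lemma fermat_isHomogeneous (R : Type*) [CommRing R] (d : ℕ) : (fermat R d).IsHomogeneous d := by
  unfold fermat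
  refine MvPolynomial.IsHomogeneous.sum _ _ _ fun i _ => ?_
  have := (MvPolynomial.isHomogeneous_X R i).pow d
  rwa [one_mul] at this

lemma map_fermat {R S : Type*} [CommRing R] [CommRing S] (φ : R →+* S) (d : ℕ) :
    MvPolynomial.map φ (fermat R d) = fermat S d := by
  simp [fermat]

lemma pderiv_fermat (R : Type*) [CommRing R] (d : ℕ) (i : Fin 4) :
    MvPolynomial.pderiv i (fermat R d) = (d : MvPolynomial (Fin 4) R) * MvPolynomial.X i ^ (d - 1) := by
  classical
  unfold fermat
  rw [map_sum, Finset.sum_eq_single i]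
  · rw [MvPolynomial.pderiv_pow, MvPolynomial.pderiv_X_self, mul_one]
  · intro j _ hj
    rw [MvPolynomial.pderiv_pow, MvPolynomial.pderiv_X_of_ne hj, mul_zero]
  · intro h
    exact absurd (Finset.mem_univ i) h

universe u

variable {k : Type u} [Field k] [NumberField k]

theorem smooth_of_fermat (q : Ideal (𝓞 k)) [q.IsMaximal] {d : ℕ}
    (hdq : (d : 𝓞 k) ∉ q) {F : MvPolynomial (Fin 4) (𝓞 k)} (hom : F.IsHomogeneous d)
    (hF : ∀ m, (F - fermat (𝓞 k) d).coeff m ∈ q)
    {x : Fin 4 → AlgebraicClosure k} (hx : x ≠ 0) :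
    ∃ i, MvPolynomial.aeval x
      (MvPolynomial.pderiv i (MvPolynomial.map (algebraMap (𝓞 k) k) F)) ≠ 0 := by
  by_contra hcon
  push Not at hcon
  obtain ⟨P, hPm, hPo⟩ := Ideal.exists_maximal_ideal_liesOver_of_isIntegral
    (S := 𝓞 (residueField k x)) q
  obtain ⟨c, z, hc, hz, i, hzi⟩ := exists_primitive hx P hPm.ne_top
  have h0 : MvPolynomial.aeval z (MvPolynomial.pderiv i F) = 0 := by
    refine aeval_z_eq hz (hom.pderiv (i := i)) ?_
    rw [← MvPolynomial.pderiv_map]
    exact hcon i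
  -- reduce modulo `P`
  have h1 : MvPolynomial.map (Ideal.Quotient.mk q) F = fermat (𝓞 k ⧸ q) d := by
    rw [← map_fermat (Ideal.Quotient.mk q), ← sub_eq_zero, ← map_sub]
    ext m
    rw [MvPolynomial.coeff_map, MvPolynomial.coeff_zero]
    exact Ideal.Quotient.eq_zero_iff_mem.mpr (hF m)
  have h2 : Ideal.Quotient.mk P (MvPolynomial.aeval z (MvPolynomial.pderiv i F)) =
      MvPolynomial.eval₂ (algebraMap (𝓞 k ⧸ q) (𝓞 (residueField k x) ⧸ P))
        (fun j => Ideal.Quotient.mk P (z j))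
        (MvPolynomial.map (Ideal.Quotient.mk q) (MvPolynomial.pderiv i F)) := by
    rw [MvPolynomial.map_aeval, MvPolynomial.eval₂_map, MvPolynomial.coe_eval₂Hom]
    rfl
  rw [h0, map_zero, ← MvPolynomial.pderiv_map, h1, pderiv_fermat] at h2
  simp only [MvPolynomial.eval₂_mul, MvPolynomial.eval₂_natCast, MvPolynomial.eval₂_pow,
    MvPolynomial.eval₂_X] at h2
  have h3 : ((d : 𝓞 (residueField k x)) * z i ^ (d - 1)) ∈ P := by
    rw [← Ideal.Quotient.eq_zero_iff_mem, map_mul, map_pow, map_natCast]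
    exact h2.symm
  rcases hPm.isPrime.mem_or_mem h3 with h4 | h4
  · apply hdq
    rw [hPo.over, Ideal.mem_comap, map_natCast]
    exact h4
  · exact hzi (hPm.isPrime.mem_of_pow_mem _ h4)

end Pool.Agent.Lib.MP_5ef43e_nt
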